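import Mathlib
import Pool.Agent.H.MP_718be6_lc.Main

set_option autoImplicit false

namespace Pool.Agent.Results.MP_718be6_lc.Counter

open Pool.Agent.H.MP_718be6_lc

theorem result : Finite lang.Symbols ∧ InternalFree prog ∧ ¬ ∃ I, LStable prog I :=
  ⟨finite_symbols, ivf, main⟩

end Pool.Agent.Results.MP_718be6_lc.Counter
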